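import Mathlib

set_option autoImplicit false

namespace Pool.Agent.H20.CubeDim

/-- `S` resolves the vertices of `G`. -/
def IsResolving {V : Type} (G : SimpleGraph V) (S : Finset V) : Prop :=
  ∀ u v : V, u ≠ v → ∃ s ∈ S, G.dist u s ≠ G.dist v s

/-- `S` resolves the edges of `G`. -/
def IsEdgeResolving {V : Type} (G : SimpleGraph V) (S : Finset V) : Prop :=
  ∀ u v x y : V, G.Adj u v → G.Adj x y → s(u, v) ≠ s(x, y) →
    ∃ s ∈ S, min (G.dist u s) (G.dist v s) ≠ min (G.dist x s) (G.dist y s)

/-- Metric dimension: the least size of a resolving set. -/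
noncomputable def metricDim {V : Type} (G : SimpleGraph V) : ℕ :=
  sInf {n : ℕ | ∃ S : Finset V, S.card = n ∧ IsResolving G S}

/-- Edge metric dimension: the least size of a nonempty edge resolving set. -/
noncomputable def edgeMetricDim {V : Type} (G : SimpleGraph V) : ℕ :=
  sInf {n : ℕ | ∃ S : Finset V, S.Nonempty ∧ S.card = n ∧ IsEdgeResolving G S}

/-- The hypercube graph. -/
def cube (d : ℕ) : SimpleGraph (Fin d → Bool) where
  Adj x y := hammingDist x y = 1
  symm := ⟨fun x y h => by rw [hammingDist_comm]; exact h⟩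
  loopless := ⟨fun x h => by simp at h⟩

open Classical in
/-- The dimensions `d` with `1 ≤ d ≤ N` and `dim(Q_d) ≠ edim(Q_d)`. -/
noncomputable def exceptions (N : ℕ) : Finset ℕ :=
  (Finset.Icc 1 N).filter (fun d => metricDim (cube d) ≠ edgeMetricDim (cube d))

end Pool.Agent.H20.CubeDim
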