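import Mathlib
import Pool.Agent.H20.CubeDefs

set_option autoImplicit false

namespace Pool.Agent.H20.CubeDim

open Finset

theorem cube_adj {d : ℕ} (x y : Fin d → Bool) : (cube d).Adj x y ↔ hammingDist x y = 1 := Iff.rfl

/-! ### Distances in the cube -/

theorem hamming_le_length {d : ℕ} {x y : Fin d → Bool} (p : (cube d).Walk x y) :
    hammingDist x y ≤ p.length := by
  induction p with
  | nil => simp
  | cons h p ih =>
    rw [SimpleGraph.Walk.length_cons]
    have h1 := (cube_adj _ _).1 h
    calc _ ≤ _ := hammingDist_triangle _ _ _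
      _ ≤ _ := by rw [h1]; omega

theorem exists_walk {d : ℕ} : ∀ (n : ℕ) (x y : Fin d → Bool), hammingDist x y = n →
    ∃ p : (cube d).Walk x y, p.length = n := by
  intro n
  induction n with
  | zero =>
    intro x y h
    have := eq_of_hammingDist_eq_zero h
    subst this
    exact ⟨SimpleGraph.Walk.nil, rfl⟩
  | succ n ih =>
    intro x y h
    have hne : x ≠ y := by
      intro he; subst he; simp at h
    obtain ⟨i, hi⟩ := Function.ne_iff.1 hne
    set x' := Function.update x i (y i) with hx'
    have h1 : hammingDist x x' = 1 := by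
      unfold hammingDist
      rw [Finset.card_eq_one]
      refine ⟨i, ?_⟩
      ext j
      simp only [Finset.mem_filter, Finset.mem_univ, true_and, Finset.mem_singleton]
      constructor
      · intro hj
        by_contra hji
        exact hj (by rw [hx', Function.update_of_ne hji])
      · rintro rfl
        rw [hx', Function.update_self]; exact hi
    have h2 : hammingDist x' y = n := by
      have h3 : (Finset.univ.filter (fun j => x j ≠ y j)) =
          insert i (Finset.univ.filter (fun j => x' j ≠ y j)) := by
        ext j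
        simp only [Finset.mem_filter, Finset.mem_univ, true_and, Finset.mem_insert]
        by_cases hji : j = i
        · subst hji; simp [hi]
        · rw [hx', Function.update_of_ne hji]; simp [hji]
      unfold hammingDist at h ⊢
      rw [h3, Finset.card_insert_of_notMem] at h
      · omega
      · simp [hx']
    obtain ⟨p, hp⟩ := ih x' y h2
    exact ⟨SimpleGraph.Walk.cons ((cube_adj _ _).2 h1) p, by simp [hp]⟩

theorem cube_dist {d : ℕ} (x y : Fin d → Bool) : (cube d).dist x y = hammingDist x y := by
  obtain ⟨p, hp⟩ := exists_walk _ x y rfl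
  apply le_antisymm
  · rw [← hp]; exact SimpleGraph.dist_le p
  · obtain ⟨q, hq⟩ := SimpleGraph.Reachable.exists_walk_length_eq_dist ⟨p⟩
    rw [← hq]; exact hamming_le_length q

/-! ### Resolving sets are edge resolving -/

theorem hd_cast {d : ℕ} (x y : Fin d → Bool) :
    ((hammingDist x y : ℕ) : ℤ) = ∑ k, (if x k ≠ y k then (1 : ℤ) else 0) := by
  unfold hammingDist
  rw [Finset.card_filter]
  push_cast
  rfl

/-- The distance outside coordinate `i`. -/
def off {d : ℕ} (i : Fin d) (x y : Fin d → Bool) : ℕ :=
  ∑ k ∈ Finset.univ.erase i, (if x k ≠ y k then 1 else 0)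

theorem hd_off {d : ℕ} (i : Fin d) (x y : Fin d → Bool) :
    hammingDist x y = (if x i ≠ y i then 1 else 0) + off i x y := by
  unfold hammingDist off
  rw [Finset.card_filter]
  exact (Finset.add_sum_erase Finset.univ (fun k => if x k ≠ y k then 1 else 0)
    (Finset.mem_univ i)).symm

theorem off_congr {d : ℕ} (i : Fin d) {x x' : Fin d → Bool} (y : Fin d → Bool)
    (h : ∀ j, j ≠ i → x j = x' j) : off i x y = off i x' y := by
  unfold off
  apply Finset.sum_congr rfl
  intro k hk
  rw [h k (Finset.ne_of_mem_erase hk)]

theorem edge_rep {d : ℕ} {u v : Fin d → Bool} (h : (cube d).Adj u v) :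
    ∃ i, u i ≠ v i ∧ (∀ j, j ≠ i → u j = v j) ∧
      ∀ s, min ((cube d).dist u s) ((cube d).dist v s) = off i u s := by
  rw [cube_adj] at h
  unfold hammingDist at h
  obtain ⟨i, hi⟩ := Finset.card_eq_one.1 h
  have hi1 : u i ≠ v i := by
    have : i ∈ Finset.univ.filter (fun j => u j ≠ v j) := by rw [hi]; simp
    simpa using this
  have hi2 : ∀ j, j ≠ i → u j = v j := by
    intro j hj
    by_contra hne
    have : j ∈ Finset.univ.filter (fun j => u j ≠ v j) := by simpa using hne
    rw [hi] at this
    exact hj (by simpa using this)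
  refine ⟨i, hi1, hi2, ?_⟩
  intro s
  rw [cube_dist, cube_dist, hd_off i u s, hd_off i v s,
    off_congr i s (fun j hj => (hi2 j hj).symm)]
  by_cases hu : u i = s i
  · rw [if_neg (by simpa using hu)]; simp
  · have hv : v i = s i := by
      revert hi1 hu; cases u i <;> cases v i <;> cases s i <;> simp
    rw [if_neg (c := v i ≠ s i) (by simpa using hv)]; simp

theorem beta_xor (a b : Bool) :
    (((if a ≠ b then 1 else 0 : ℕ)) : ZMod 2) = (if a then 1 else 0) + (if b then 1 else 0) := by
  cases a <;> cases b <;> decide

theorem off_cast {d : ℕ} (i : Fin d) (x y : Fin d → Bool) :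
    ((off i x y : ℕ) : ZMod 2) =
      (∑ k ∈ Finset.univ.erase i, (if x k then (1 : ZMod 2) else 0)) +
        (∑ k, (if y k then (1 : ZMod 2) else 0)) - (if y i then 1 else 0) := by
  unfold off
  rw [← Finset.add_sum_erase _ (fun k => (if y k then (1 : ZMod 2) else 0)) (Finset.mem_univ i)]
  have : ((∑ k ∈ Finset.univ.erase i, (if x k ≠ y k then 1 else 0) : ℕ) : ZMod 2) =
      ∑ k ∈ Finset.univ.erase i,
        ((if x k then (1 : ZMod 2) else 0) + (if y k then 1 else 0)) := by
    rw [Nat.cast_sum]
    exact Finset.sum_congr rfl (fun k _ => beta_xor _ _)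
  rw [this, Finset.sum_add_distrib]
  ring

theorem two_col {d : ℕ} {S : Finset (Fin d → Bool)} {i j : Fin d} (hij : i ≠ j)
    (c : Bool) (hc : ∀ s ∈ S, s j = xor (s i) c) :
    ∃ p q : Fin d → Bool, p ≠ q ∧ ∀ s ∈ S, hammingDist p s = hammingDist q s := by
  refine ⟨Function.update (Function.update (fun _ => false) i true) j c,
    Function.update (Function.update (fun _ => false) i false) j (!c), ?_, ?_⟩
  · intro h
    have := congrFun h i
    simp [hij] at this
  · intro s hs
    have h1 := hc s hs
    zify
    rw [hd_cast, hd_cast, ← sub_eq_zero, ← Finset.sum_sub_distrib]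
    rw [Finset.sum_eq_add i j hij]
    · simp [hij, h1]
      cases s i <;> cases c <;> simp
    · intro k _ hk
      simp [hk.1, hk.2]
    · simp
    · simp

theorem edge_of_resolving {d : ℕ} {S : Finset (Fin d → Bool)}
    (hS : IsResolving (cube d) S) : IsEdgeResolving (cube d) S := by
  intro u v x y huv hxy hne
  by_contra hcon
  push Not at hcon
  obtain ⟨i, hi1, hi2, hi3⟩ := edge_rep huv
  obtain ⟨j, hj1, hj2, hj3⟩ := edge_rep hxy
  have hcon' : ∀ s ∈ S, off i u s = off j x s := by
    intro s hs
    rw [← hi3, ← hj3]; exact hcon s hs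
  have hfalse : ∀ p q : Fin d → Bool, p ≠ q →
      (∀ s ∈ S, hammingDist p s = hammingDist q s) → False := by
    intro p q hpq h
    obtain ⟨s, hs, hs2⟩ := hS p q hpq
    rw [cube_dist, cube_dist] at hs2
    exact hs2 (h s hs)
  by_cases hij : i = j
  · subst hij
    apply hfalse (Function.update u i true) (Function.update x i true)
    · intro h
      have hux : ∀ k, k ≠ i → u k = x k := by
        intro k hk
        have := congrFun h k
        simpa [hk] using this
      apply hne
      by_cases hu : u i = x i
      · have h1 : u = x := by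
          funext k; by_cases hk : k = i
          · rw [hk, hu]
          · exact hux k hk
        have h2 : v = y := by
          funext k; by_cases hk : k = i
          · rw [hk]; revert hi1 hj1 hu; cases u i <;> cases v i <;> cases x i <;>
              cases y i <;> simp
          · rw [← hi2 k hk, ← hj2 k hk]; exact hux k hk
        rw [h1, h2]
      · have h1 : u = y := by
          funext k; by_cases hk : k = i
          · rw [hk]; revert hi1 hj1 hu; cases u i <;> cases v i <;> cases x i <;>
              cases y i <;> simp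
          · rw [← hj2 k hk]; exact hux k hk
        have h2 : v = x := by
          funext k; by_cases hk : k = i
          · rw [hk]; revert hi1 hj1 hu; cases u i <;> cases v i <;> cases x i <;>
              cases y i <;> simp
          · rw [← hi2 k hk]; exact hux k hk
        rw [h1, h2]
        exact Sym2.eq_swap
    · intro s hs
      rw [hd_off i, hd_off i, off_congr i (x := Function.update u i true) (x' := u) s
        (fun k hk => by simp [hk]), off_congr i (x := Function.update x i true) (x' := x) s
        (fun k hk => by simp [hk]), hcon' s hs]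
      simp
  · -- parity forces the two columns to agree up to a global flip
    set A : ZMod 2 := ∑ k ∈ Finset.univ.erase i, (if u k then (1 : ZMod 2) else 0) with hA
    set B : ZMod 2 := ∑ k ∈ Finset.univ.erase j, (if x k then (1 : ZMod 2) else 0) with hB
    have hpar : ∀ s ∈ S, (if s j then (1 : ZMod 2) else 0) = (if s i then 1 else 0) + (B - A) := by
      intro s hs
      have h1 := congrArg (fun n : ℕ => (n : ZMod 2)) (hcon' s hs)
      simp only [off_cast, ← hA, ← hB] at h1
      linear_combination h1
    obtain ⟨p, q, hpq, h⟩ := two_col hij (decide (B - A = 1)) (S := S) (by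
      intro s hs
      have h1 := hpar s hs
      revert h1
      generalize B - A = c
      revert c
      cases s i <;> cases s j <;> decide)
    exact hfalse p q hpq h

/-! ### Deleting a coordinate -/

theorem cube_resolving_univ (d : ℕ) : IsResolving (cube d) Finset.univ := by
  intro u v huv
  refine ⟨u, Finset.mem_univ _, ?_⟩
  rw [cube_dist, cube_dist, hammingDist_self]
  exact (hammingDist_pos.2 huv.symm).ne

theorem metricDim_le {d : ℕ} {S : Finset (Fin d → Bool)} (hS : IsResolving (cube d) S) :
    metricDim (cube d) ≤ S.card :=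
  Nat.sInf_le ⟨S, rfl, hS⟩

theorem metricDim_spec (d : ℕ) :
    ∃ S : Finset (Fin d → Bool), S.card = metricDim (cube d) ∧ IsResolving (cube d) S := by
  have : {n : ℕ | ∃ S : Finset (Fin d → Bool), S.card = n ∧ IsResolving (cube d) S}.Nonempty :=
    ⟨_, Finset.univ, rfl, cube_resolving_univ d⟩
  exact Nat.sInf_mem this

theorem resolving_nonempty {d : ℕ} {S : Finset (Fin (d + 1) → Bool)}
    (hS : IsResolving (cube (d + 1)) S) : S.Nonempty := by
  obtain ⟨s, hs, -⟩ := hS (fun _ => true) (fun _ => false) (by
    intro h
    have := congrFun h 0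
    simp at this)
  exact ⟨s, hs⟩

theorem edgeMetricDim_le (d : ℕ) :
    edgeMetricDim (cube (d + 1)) ≤ metricDim (cube (d + 1)) := by
  obtain ⟨S, hS, hS2⟩ := metricDim_spec (d + 1)
  exact Nat.sInf_le ⟨S, resolving_nonempty hS2, hS, edge_of_resolving hS2⟩

theorem edgeMetricDim_spec (d : ℕ) :
    ∃ S : Finset (Fin (d + 1) → Bool), S.Nonempty ∧ S.card = edgeMetricDim (cube (d + 1)) ∧
      IsEdgeResolving (cube (d + 1)) S := by
  have : {n : ℕ | ∃ S : Finset (Fin (d + 1) → Bool), S.Nonempty ∧ S.card = n ∧
      IsEdgeResolving (cube (d + 1)) S}.Nonempty :=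
    ⟨_, Finset.univ, resolving_nonempty (cube_resolving_univ _), rfl,
      edge_of_resolving (cube_resolving_univ _)⟩
  exact Nat.sInf_mem this

theorem hd_cons {d : ℕ} (b : Bool) (u : Fin d → Bool) (s : Fin (d + 1) → Bool) :
    hammingDist (Fin.cons b u : Fin (d + 1) → Bool) s =
      (if b ≠ s 0 then 1 else 0) + hammingDist u (Fin.tail s) := by
  unfold hammingDist
  rw [Finset.card_filter, Finset.card_filter, Fin.sum_univ_succ]
  simp only [Fin.cons_zero, Fin.cons_succ, Fin.tail]
  rfl

theorem tail_resolving {d : ℕ} {S : Finset (Fin (d + 1) → Bool)}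
    (hS : IsEdgeResolving (cube (d + 1)) S) :
    IsResolving (cube d) (S.image Fin.tail) := by
  intro u v huv
  have hadj : ∀ w : Fin d → Bool, (cube (d + 1)).Adj (Fin.cons true w) (Fin.cons false w) := by
    intro w
    rw [cube_adj, hd_cons]
    have : Fin.tail (Fin.cons false w : Fin (d + 1) → Bool) = w := Fin.tail_cons _ _
    rw [this, hammingDist_self]
    simp
  obtain ⟨s, hs, hne⟩ := hS _ _ _ _ (hadj u) (hadj v) (by
    intro h
    rw [Sym2.eq_iff] at h
    rcases h with h | h
    · exact huv (by simpa using congrArg Fin.tail h.1)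
    · exact huv (by simpa using congrArg Fin.tail h.1))
  refine ⟨Fin.tail s, Finset.mem_image_of_mem _ hs, ?_⟩
  rw [cube_dist, cube_dist]
  intro h
  apply hne
  rw [cube_dist, cube_dist, cube_dist, cube_dist, hd_cons, hd_cons, hd_cons, hd_cons, h]

/-- Deleting a coordinate turns an edge resolving set of `Q_{d+1}` into a resolving set of
`Q_d`. -/
theorem metricDim_le_edge (d : ℕ) : metricDim (cube d) ≤ edgeMetricDim (cube (d + 1)) := by
  obtain ⟨S, -, hS, hS2⟩ := edgeMetricDim_spec d
  rw [← hS]
  exact (metricDim_le (tail_resolving hS2)).trans Finset.card_image_le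

/-! ### Counting the exceptions -/

theorem exceptions_succ (N : ℕ) :
    (exceptions (N + 1)).card + metricDim (cube N) ≤
      (exceptions N).card + metricDim (cube (N + 1)) := by
  have h1 := metricDim_le_edge N
  have h2 := edgeMetricDim_le N
  have hI : Finset.Icc 1 (N + 1) = insert (N + 1) (Finset.Icc 1 N) := by
    ext k; simp only [Finset.mem_Icc, Finset.mem_insert]; omega
  have h3 : exceptions (N + 1) ⊆ insert (N + 1) (exceptions N) := by
    intro k hk
    simp only [exceptions, Finset.mem_filter, hI, Finset.mem_insert] at hk ⊢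
    tauto
  by_cases he : metricDim (cube (N + 1)) = edgeMetricDim (cube (N + 1))
  · have h4 : exceptions (N + 1) ⊆ exceptions N := by
      intro k hk
      have := h3 hk
      rw [Finset.mem_insert] at this
      rcases this with rfl | h
      · simp only [exceptions, Finset.mem_filter] at hk
        exact absurd he hk.2
      · exact h
    have := Finset.card_le_card h4
    omega
  · have := (Finset.card_le_card h3).trans (Finset.card_insert_le _ _)
    omega

theorem metricDim_zero : metricDim (cube 0) = 0 := by
  have : IsResolving (cube 0) ∅ := by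
    intro u v huv
    exact absurd (Subsingleton.elim u v) huv
  have := metricDim_le this
  simpa using this

theorem exceptions_le (N : ℕ) : (exceptions N).card ≤ metricDim (cube N) := by
  induction N with
  | zero => simp [exceptions]
  | succ N ih =>
    have := exceptions_succ N
    omega

/-! ### Odd dimensions, and the growth of the metric dimension by at most one -/

theorem hd_cast2 {d : ℕ} (x y : Fin d → Bool) :
    ((hammingDist x y : ℕ) : ZMod 2) =
      (∑ k, (if x k then (1 : ZMod 2) else 0)) + (∑ k, (if y k then (1 : ZMod 2) else 0)) := by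
  unfold hammingDist
  rw [Finset.card_filter, Nat.cast_sum, ← Finset.sum_add_distrib]
  exact Finset.sum_congr rfl (fun k _ => beta_xor _ _)

/-- For odd `d` a nonempty edge resolving set is resolving. -/
theorem resolving_of_edge_odd {d : ℕ} (hd : Odd d) {S : Finset (Fin d → Bool)}
    (hne : S.Nonempty) (hS : IsEdgeResolving (cube d) S) : IsResolving (cube d) S := by
  intro u v huv
  by_contra hcon
  push Not at hcon
  simp only [cube_dist] at hcon
  -- the number of places where `u` and `v` differ is even
  have hpar : ((hammingDist u v : ℕ) : ZMod 2) = 0 := by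
    obtain ⟨s, hs⟩ := hne
    have h1 := congrArg (fun n : ℕ => (n : ZMod 2)) (hcon s hs)
    simp only [hd_cast2] at h1
    rw [hd_cast2]
    have h2 : (∑ k, (if u k then (1 : ZMod 2) else 0)) =
        (∑ k, (if v k then (1 : ZMod 2) else 0)) := by linear_combination h1
    rw [h2]
    exact CharTwo.add_self_eq_zero _
  have hex : ∃ i, u i = v i := by
    by_contra h
    push Not at h
    have h1 : hammingDist u v = d := by
      unfold hammingDist
      rw [Finset.filter_true_of_mem (fun i _ => h i)]
      simp
    rw [h1] at hpar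
    have h2 := (ZMod.natCast_eq_zero_iff_even (n := d)).1 hpar
    rw [Nat.odd_iff] at hd
    rw [Nat.even_iff] at h2
    omega
  obtain ⟨i, hi⟩ := hex
  have hadj : ∀ w : Fin d → Bool,
      (cube d).Adj w (Function.update w i (!(w i))) := by
    intro w
    rw [cube_adj]
    unfold hammingDist
    rw [Finset.card_eq_one]
    refine ⟨i, ?_⟩
    ext j
    simp only [Finset.mem_filter, Finset.mem_univ, true_and, Finset.mem_singleton]
    by_cases hj : j = i
    · subst hj; simp
    · simp [hj]
  have hmin : ∀ w s : Fin d → Bool,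
      min ((cube d).dist w s) ((cube d).dist (Function.update w i (!(w i))) s) = off i w s := by
    intro w s
    rw [cube_dist, cube_dist, hd_off i w s, hd_off i (Function.update w i (!(w i))) s,
      off_congr i (x := Function.update w i (!(w i))) (x' := w) s (fun k hk => by simp [hk])]
    rw [Function.update_self]
    cases w i <;> cases s i <;> simp
  obtain ⟨s, hs, hns⟩ := hS _ _ _ _ (hadj u) (hadj v) (by
    intro h
    rw [Sym2.eq_iff] at h
    rcases h with h | h
    · exact huv h.1
    · have := congrFun h.1 i
      rw [Function.update_self, ← hi] at this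
      cases hui : u i <;> rw [hui] at this <;> simp at this)
  rw [hmin, hmin] at hns
  apply hns
  have h1 := hcon s hs
  rw [hd_off i u s, hd_off i v s, hi] at h1
  omega

theorem metricDim_eq_of_odd {d : ℕ} (hd : Odd d) :
    metricDim (cube d) = edgeMetricDim (cube d) := by
  obtain ⟨e, rfl⟩ : ∃ e, d = e + 1 := ⟨d - 1, by
    have := hd.pos; omega⟩
  apply le_antisymm _ (edgeMetricDim_le e)
  obtain ⟨S, hne, hS, hS2⟩ := edgeMetricDim_spec e
  rw [← hS]
  exact metricDim_le (resolving_of_edge_odd hd hne hS2)

theorem metricDim_succ_le (d : ℕ) : metricDim (cube (d + 1)) ≤ metricDim (cube d) + 1 := by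
  classical
  rcases Nat.eq_zero_or_pos d with rfl | hd
  · have : IsResolving (cube 1) {fun _ => false} := by
      intro u v huv
      refine ⟨fun _ => false, by simp, ?_⟩
      rw [cube_dist, cube_dist]
      intro h
      apply huv
      unfold hammingDist at h
      rw [Finset.card_filter, Finset.card_filter, Fin.sum_univ_one, Fin.sum_univ_one] at h
      funext k
      have hk : k = 0 := Subsingleton.elim _ _
      subst hk
      revert h
      cases u 0 <;> cases v 0 <;> simp
    have := metricDim_le this
    simpa using this.trans (by simp)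
  · obtain ⟨e, rfl⟩ : ∃ e, d = e + 1 := ⟨d - 1, by omega⟩
    obtain ⟨S, hS, hS2⟩ := metricDim_spec (e + 1)
    obtain ⟨s0, hs0⟩ := resolving_nonempty hS2
    have hres : IsResolving (cube (e + 1 + 1))
        (insert (Fin.cons true s0) (S.image (fun s => (Fin.cons false s :
          Fin (e + 1 + 1) → Bool)))) := by
      intro u v huv
      by_contra hcon
      push Not at hcon
      have hc : ∀ (w : Fin (e + 1 + 1) → Bool) (b : Bool) (s : Fin (e + 1) → Bool),
          (cube (e + 1 + 1)).dist w (Fin.cons b s) =
            (if w 0 ≠ b then 1 else 0) + hammingDist (Fin.tail w) s := by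
        intro w b s
        rw [cube_dist, hammingDist_comm, hd_cons, hammingDist_comm]
        congr 1
        cases w 0 <;> cases b <;> rfl
      have h1 := hcon (Fin.cons true s0) (Finset.mem_insert_self _ _)
      have h2 : ∀ s ∈ S, _ := fun s hs => hcon (Fin.cons false s)
        (Finset.mem_insert_of_mem (Finset.mem_image_of_mem _ hs))
      rw [hc, hc] at h1
      have h3 := h2 s0 hs0
      rw [hc, hc] at h3
      have h0 : u 0 = v 0 := by
        revert h1 h3
        cases u 0 <;> cases v 0 <;> simp <;> omega
      apply huv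
      by_contra _
      have ht : Fin.tail u ≠ Fin.tail v := by
        intro h
        apply huv
        rw [← Fin.cons_self_tail u, ← Fin.cons_self_tail v, h, h0]
      obtain ⟨s, hs, hs2⟩ := hS2 _ _ ht
      have h4 := h2 s hs
      rw [hc, hc, h0] at h4
      rw [cube_dist, cube_dist] at hs2
      omega
    calc metricDim (cube (e + 1 + 1)) ≤ _ := metricDim_le hres
      _ ≤ _ := Finset.card_insert_le _ _
      _ ≤ S.card + 1 := by
        have := Finset.card_image_le (s := S)
          (f := fun s => (Fin.cons false s : Fin (e + 1 + 1) → Bool))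
        omega
      _ = metricDim (cube (e + 1)) + 1 := by rw [hS]

/-- What an exceptional dimension must look like. -/
theorem exception_shape (d : ℕ)
    (h : metricDim (cube (d + 1)) ≠ edgeMetricDim (cube (d + 1))) :
    Even (d + 1) ∧ edgeMetricDim (cube (d + 1)) = metricDim (cube d) ∧
      metricDim (cube (d + 1)) = metricDim (cube d) + 1 := by
  refine ⟨?_, ?_⟩
  · by_contra hodd
    rw [Nat.not_even_iff_odd] at hodd
    exact h (metricDim_eq_of_odd hodd)
  · have h1 := metricDim_le_edge d
    have h2 := edgeMetricDim_le d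
    have h3 := metricDim_succ_le d
    omega

/-! ### Upper bound by recursively built detecting matrices -/

/-- There is an `m × d` matrix of signs with no nonzero vector of `{-1,0,1}^d` in its kernel. -/
def Det (m d : ℕ) : Prop :=
  ∃ (ρ γ : Type) (_ : Fintype ρ) (_ : Fintype γ) (M : ρ → γ → ℤ),
    Fintype.card ρ = m ∧ Fintype.card γ = d ∧ (∀ r c, M r c = 1 ∨ M r c = -1) ∧
      ∀ z : γ → ℤ, (∀ c, |z c| ≤ 1) → (∀ r, ∑ c, M r c * z c = 0) → ∀ c, z c = 0

theorem det_one : Det 1 1 := by
  refine ⟨Unit, Unit, inferInstance, inferInstance, fun _ _ => 1, by simp, by simp, by simp, ?_⟩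
  intro z _ h c
  simpa using h ()

theorem sign_parity {a : ℤ} (h : a = 1 ∨ a = -1) (z : ℤ) : (2 : ℤ) ∣ a * z - z := by
  rcases h with rfl | rfl
  · simp
  · exact ⟨-z, by ring⟩

theorem det_double {m d : ℕ} (hm : 1 ≤ m) (h : Det m d) : Det (2 * m) (2 * d + (m - 1)) := by
  classical
  obtain ⟨ρ, γ, iρ, iγ, M, hρ, hγ, hM, hdet⟩ := h
  have hne : Nonempty ρ := by
    rw [← Fintype.card_pos_iff, hρ]; exact hm
  obtain ⟨r0⟩ := hne
  let δ := {r : ρ // r ≠ r0}
  have hδ : Fintype.card δ = m - 1 := by
    rw [Fintype.card_subtype_compl, hρ]; simp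
  let M' : (ρ ⊕ ρ) → (γ ⊕ (γ ⊕ δ)) → ℤ := fun r c =>
    match r, c with
    | Sum.inl r, Sum.inl c => M r c
    | Sum.inl r, Sum.inr (Sum.inl c) => M r c
    | Sum.inl _, Sum.inr (Sum.inr _) => 1
    | Sum.inr r, Sum.inl c => M r c
    | Sum.inr r, Sum.inr (Sum.inl c) => - M r c
    | Sum.inr r, Sum.inr (Sum.inr c) => if r = c.1 then 1 else -1
  refine ⟨ρ ⊕ ρ, γ ⊕ (γ ⊕ δ), inferInstance, inferInstance, M', ?_, ?_, ?_, ?_⟩
  · rw [Fintype.card_sum, hρ]; ring
  · rw [Fintype.card_sum, Fintype.card_sum, hγ, hδ]; ring
  · rintro (r | r) (c | (c | c))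
    · exact hM r c
    · exact hM r c
    · exact Or.inl rfl
    · exact hM r c
    · change - M r c = 1 ∨ - M r c = -1
      rcases hM r c with h | h
      · right; rw [h]
      · left; rw [h]; norm_num
    · change (if r = c.1 then (1 : ℤ) else -1) = 1 ∨ (if r = c.1 then (1 : ℤ) else -1) = -1
      split_ifs <;> simp
  · intro z hz hker
    set x : γ → ℤ := fun c => z (Sum.inl c) with hx
    set y : γ → ℤ := fun c => z (Sum.inr (Sum.inl c)) with hy
    set w : δ → ℤ := fun c => z (Sum.inr (Sum.inr c)) with hw
    have htop : ∀ r, ∑ c, M r c * x c + (∑ c, M r c * y c + ∑ c, w c) = 0 := by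
      intro r
      have := hker (Sum.inl r)
      rw [Fintype.sum_sum_type, Fintype.sum_sum_type] at this
      simpa [M', hx, hy, hw] using this
    have hbot : ∀ r, ∑ c, M r c * x c + (- (∑ c, M r c * y c) +
        ∑ c : δ, (if r = c.1 then (1 : ℤ) else -1) * w c) = 0 := by
      intro r
      have := hker (Sum.inr r)
      rw [Fintype.sum_sum_type, Fintype.sum_sum_type] at this
      rw [← Finset.sum_neg_distrib]
      simpa only [M', hx, hy, hw, neg_mul] using this
    have hsum : ∀ r, ∑ c, M r c * x c + ∑ c : δ, (if r = c.1 then w c else 0) = 0 := by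
      intro r
      have h1 := htop r
      have h2 := hbot r
      have h3 : ∑ c, w c + ∑ c : δ, (if r = c.1 then (1 : ℤ) else -1) * w c =
          2 * ∑ c : δ, (if r = c.1 then w c else 0) := by
        rw [← Finset.sum_add_distrib, Finset.mul_sum]
        apply Finset.sum_congr rfl
        intro c _
        split_ifs <;> ring
      linarith
    have hpar : ∀ r, (2 : ℤ) ∣ ∑ c, M r c * x c - ∑ c, x c := by
      intro r
      rw [← Finset.sum_sub_distrib]
      exact Finset.dvd_sum (fun c _ => sign_parity (hM r c) (x c))
    have h0 : ∑ c, M r0 c * x c = 0 := by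
      have := hsum r0
      rw [Finset.sum_eq_zero (s := (Finset.univ : Finset δ))] at this
      · linarith
      · intro c _
        rw [if_neg (fun h => c.2 h.symm)]
    have hw0 : ∀ c, w c = 0 := by
      intro c
      have h1 := hsum c.1
      rw [Finset.sum_eq_single c] at h1
      · rw [if_pos rfl] at h1
        have h2 := hpar c.1
        have h3 := hpar r0
        have h4 : |w c| ≤ 1 := hz _
        rw [abs_le] at h4
        omega
      · intro b _ hb
        rw [if_neg (fun h => hb (Subtype.ext h.symm))]
      · simp
    have hx0 : ∀ c, x c = 0 := by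
      apply hdet x (fun c => hz _)
      intro r
      have := hsum r
      rw [Finset.sum_eq_zero (s := (Finset.univ : Finset δ))] at this
      · linarith
      · intro c _
        rw [hw0 c]; simp
    have hy0 : ∀ c, y c = 0 := by
      apply hdet y (fun c => hz _)
      intro r
      have := htop r
      rw [Finset.sum_eq_zero (s := (Finset.univ : Finset δ)) (fun c _ => hw0 c)] at this
      rw [Finset.sum_eq_zero (f := fun c => M r c * x c) (fun c _ => by rw [hx0 c]; simp)] at this
      linarith
    rintro (c | (c | c))
    · exact hx0 c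
    · exact hy0 c
    · exact hw0 c

theorem det_pow (k : ℕ) : ∃ d, 2 * d = k * 2 ^ k + 2 ∧ Det (2 ^ k) d := by
  induction k with
  | zero => exact ⟨1, by norm_num, det_one⟩
  | succ k ih =>
    obtain ⟨d, hd, h⟩ := ih
    refine ⟨2 * d + (2 ^ k - 1), ?_, ?_⟩
    · have : 1 ≤ 2 ^ k := Nat.one_le_two_pow
      obtain ⟨t, ht⟩ := Nat.exists_eq_add_of_le this
      rw [pow_succ]
      have h2 : 2 ^ k - 1 = t := by omega
      rw [h2]
      rw [ht] at hd ⊢
      ring_nf at hd ⊢
      nlinarith
    · have := det_double Nat.one_le_two_pow h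
      rwa [show 2 * 2 ^ k = 2 ^ (k + 1) by ring] at this

theorem metricDim_le_of_det {m d e : ℕ} (h : Det m d) (he : e ≤ d) :
    metricDim (cube e) ≤ m := by
  classical
  obtain ⟨ρ, γ, iρ, iγ, M, hρ, hγ, hM, hdet⟩ := h
  have hcard : Fintype.card (Fin e) ≤ Fintype.card γ := by simpa [hγ] using he
  obtain ⟨f⟩ := Function.Embedding.nonempty_of_card_le hcard
  let t : ρ → (Fin e → Bool) := fun r i => decide (M r (f i) = 1)
  have hres : IsResolving (cube e) (Finset.univ.image t) := by
    intro u v huv
    by_contra hcon
    push Not at hcon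
    apply huv
    -- the difference vector
    let z : γ → ℤ := fun c => ∑ i, if f i = c then ((if u i then 1 else 0) - (if v i then 1 else 0))
      else 0
    have hzf : ∀ i, z (f i) = (if u i then 1 else 0) - (if v i then 1 else 0) := by
      intro i
      simp only [z]
      rw [Finset.sum_eq_single i]
      · simp
      · intro b _ hb
        rw [if_neg (fun h => hb (f.injective h))]
      · simp
    have hz1 : ∀ c, |z c| ≤ 1 := by
      intro c
      by_cases hc : ∃ i, f i = c
      · obtain ⟨i, rfl⟩ := hc
        rw [hzf]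
        cases u i <;> cases v i <;> simp
      · have : z c = 0 := by
          simp only [z]
          apply Finset.sum_eq_zero
          intro i _
          rw [if_neg (fun h => hc ⟨i, h⟩)]
        rw [this]; simp
    have hz2 : ∀ r, ∑ c, M r c * z c = 0 := by
      intro r
      have h1 : ∑ c, M r c * z c =
          ∑ i, M r (f i) * ((if u i then 1 else 0) - (if v i then 1 else 0)) := by
        simp only [z, Finset.mul_sum]
        rw [Finset.sum_comm]
        apply Finset.sum_congr rfl
        intro i _
        rw [Finset.sum_eq_single (f i)]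
        · simp
        · intro c _ hc
          rw [if_neg (fun h => hc h.symm)]; simp
        · simp
      rw [h1]
      have h2 := hcon (t r) (Finset.mem_image_of_mem _ (Finset.mem_univ r))
      rw [cube_dist, cube_dist] at h2
      have h3 : ((hammingDist v (t r) : ℕ) : ℤ) - ((hammingDist u (t r) : ℕ) : ℤ) = 0 := by
        rw [h2]; ring
      rw [hd_cast, hd_cast, ← Finset.sum_sub_distrib] at h3
      refine Eq.trans ?_ h3
      apply Finset.sum_congr rfl
      intro i _
      rcases hM r (f i) with h | h
      · simp only [t, h]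
        cases u i <;> cases v i <;> simp
      · simp only [t, h]
        cases u i <;> cases v i <;> simp
    have hz := hdet z hz1 hz2
    funext i
    have := hz (f i)
    rw [hzf] at this
    revert this
    cases u i <;> cases v i <;> simp
  calc metricDim (cube e) ≤ (Finset.univ.image t).card := metricDim_le hres
    _ ≤ (Finset.univ : Finset ρ).card := Finset.card_image_le
    _ = m := by rw [Finset.card_univ, hρ]

theorem metricDim_le_pow {N k : ℕ} (h : 2 * N ≤ k * 2 ^ k + 2) : metricDim (cube N) ≤ 2 ^ k := by
  obtain ⟨d, hd, hdet⟩ := det_pow k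
  exact metricDim_le_of_det hdet (by omega)

/-- An explicit bound of order `N / log N` for the metric dimension of `Q_N`. -/
theorem metricDim_log (N : ℕ) (hN : 1 ≤ N) :
    (metricDim (cube N) : ℝ) * Real.log N ≤ 9 * N := by
  classical
  have hex : ∃ k : ℕ, 2 * N ≤ k * 2 ^ k + 2 := by
    refine ⟨N, ?_⟩
    have : 2 ≤ 2 ^ N := by
      calc 2 = 2 ^ 1 := by norm_num
        _ ≤ 2 ^ N := Nat.pow_le_pow_right (by norm_num) hN
    nlinarith
  set k := Nat.find hex with hk
  have hk1 : 2 * N ≤ k * 2 ^ k + 2 := Nat.find_spec hex
  have hdim := metricDim_le_pow hk1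
  have hNr : (1 : ℝ) ≤ N := by exact_mod_cast hN
  have hlog0 : 0 ≤ Real.log N := Real.log_nonneg hNr
  have hdimr : (metricDim (cube N) : ℝ) ≤ 2 ^ k := by exact_mod_cast hdim
  have hl2 : Real.log 2 ≤ 0.6931471808 := Real.log_two_lt_d9.le
  have hl2' : 0 < Real.log 2 := Real.log_pos (by norm_num)
  rcases Nat.lt_or_ge k 2 with hk2 | hk2
  · -- N ≤ 2
    have hN2 : N ≤ 2 := by
      interval_cases k <;> omega
    have h2k : (2 : ℝ) ^ k ≤ 2 := by
      calc (2 : ℝ) ^ k ≤ 2 ^ 1 := pow_le_pow_right₀ (by norm_num) (by omega)
        _ = 2 := by norm_num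
    have hlogN : Real.log N ≤ Real.log 2 := by
      apply Real.log_le_log (by linarith)
      exact_mod_cast hN2
    nlinarith [mul_le_mul (hdimr.trans h2k) hlogN hlog0 (by norm_num : (0:ℝ) ≤ 2)]
  · obtain ⟨j, hj⟩ : ∃ j, k = j + 1 := ⟨k - 1, by omega⟩
    have hj1 : 1 ≤ j := by omega
    have hlt : ¬ (2 * N ≤ j * 2 ^ j + 2) := Nat.find_min hex (by omega)
    have hlt' : j * 2 ^ j + 2 < 2 * N := by omega
    have hjr : (1 : ℝ) ≤ j := by exact_mod_cast hj1
    have hA : (j : ℝ) * 2 ^ j ≤ 2 * N := by
      have : j * 2 ^ j ≤ 2 * N := by omega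
      exact_mod_cast this
    -- log N ≤ 3 j log 2
    have hB : N ≤ 2 ^ (3 * j) := by
      have e1 : j + 2 ≤ 2 ^ (j + 1) := by
        have : j + 1 < 2 ^ (j + 1) := Nat.lt_two_pow_self
        omega
      have e2 : N ≤ (j + 1) * 2 ^ j + 1 := by
        rw [hj, pow_succ] at hk1
        have : (j + 1) * (2 ^ j * 2) + 2 = 2 * ((j + 1) * 2 ^ j + 1) := by ring
        omega
      have e3 : 1 ≤ 2 ^ j := Nat.one_le_two_pow
      calc N ≤ (j + 1) * 2 ^ j + 1 := e2
        _ ≤ (j + 1) * 2 ^ j + 2 ^ j := by omega
        _ = (j + 2) * 2 ^ j := by ring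
        _ ≤ 2 ^ (j + 1) * 2 ^ j := Nat.mul_le_mul_right _ e1
        _ = 2 ^ (2 * j + 1) := by rw [← pow_add]; congr 1; ring
        _ ≤ 2 ^ (3 * j) := Nat.pow_le_pow_right (by norm_num) (by omega)
    have hC : Real.log N ≤ 3 * j * Real.log 2 := by
      have : Real.log N ≤ Real.log ((2 : ℝ) ^ (3 * j)) := by
        apply Real.log_le_log (by linarith)
        exact_mod_cast hB
      rw [Real.log_pow] at this
      push_cast at this
      linarith
    have hk' : (2 : ℝ) ^ k = 2 * 2 ^ j := by rw [hj, pow_succ]; ring
    have hp : (0 : ℝ) < 2 ^ j := by positivity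
    calc (metricDim (cube N) : ℝ) * Real.log N ≤ 2 ^ k * (3 * j * Real.log 2) :=
          mul_le_mul hdimr hC hlog0 (by positivity)
      _ = 6 * Real.log 2 * (j * 2 ^ j) := by rw [hk']; ring
      _ ≤ 6 * Real.log 2 * (2 * N) := by
          apply mul_le_mul_of_nonneg_left hA; positivity
      _ ≤ 9 * N := by nlinarith

theorem exceptions_log (N : ℕ) : ((exceptions N).card : ℝ) * Real.log N ≤ 9 * N := by
  rcases Nat.eq_zero_or_pos N with rfl | hN
  · simp
  · have h1 : ((exceptions N).card : ℝ) ≤ metricDim (cube N) := by
      exact_mod_cast exceptions_le N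
    have h2 : 0 ≤ Real.log N := Real.log_nonneg (by exact_mod_cast hN)
    exact (mul_le_mul_of_nonneg_right h1 h2).trans (metricDim_log N hN)

theorem exceptions_density :
    Filter.Tendsto (fun N : ℕ => ((exceptions N).card : ℝ) / N) Filter.atTop (nhds 0) := by
  have hlog : Filter.Tendsto (fun N : ℕ => Real.log N) Filter.atTop Filter.atTop :=
    Real.tendsto_log_atTop.comp tendsto_natCast_atTop_atTop
  have hlim : Filter.Tendsto (fun N : ℕ => 9 / Real.log N) Filter.atTop (nhds 0) :=
    hlog.const_div_atTop 9
  refine squeeze_zero' (Filter.Eventually.of_forall fun N => by positivity) ?_ hlim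
  filter_upwards [Filter.eventually_ge_atTop 2] with N hN
  have hN0 : (0 : ℝ) < N := by
    have : 0 < N := by omega
    exact_mod_cast this
  have hl : 0 < Real.log N := Real.log_pos (by
    have : 1 < N := by omega
    exact_mod_cast this)
  rw [div_le_div_iff₀ hN0 hl]
  exact exceptions_log N

end Pool.Agent.H20.CubeDim
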