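import Mathlib
import Pool.Agent.H27.KQTwoGaps

/-!
# Lattice paths in the triangular lattice

Two infinite paths in `ℤ²` with steps `(1,0)`, `(0,1)`, `(1,1)` cannot cross without a common
vertex.  This gives a Bohr set in the difference set of every sequence whose consecutive
differences are `u`, `v` or `u + v`.
-/

set_option autoImplicit false

namespace Pool.Agent.H20.KQ3

open Finset Pool.Agent.H27.KQ

/-- Columns `[B m, T m]` of a path; a translate by `(p, q)` without common vertex stays on one
side. -/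
theorem side (B T : ℕ → ℤ) (hBT : ∀ m, B m ≤ T m) (h1 : ∀ m, T m ≤ B (m + 1))
    (h2 : ∀ m, B (m + 1) ≤ T m + 1) (p : ℕ) (q : ℤ)
    (hdis : ∀ m y, B m ≤ y → y ≤ T m → B (m + p) ≤ y + q → y + q ≤ T (m + p) → False) :
    (∀ m, T (m + p) < B m + q) ∨ (∀ m, T m + q < B (m + p)) := by
  have hdi : ∀ m, T (m + p) < B m + q ∨ T m + q < B (m + p) := by
    intro m
    by_contra hcon
    push Not at hcon
    obtain ⟨c1, c2⟩ := hcon
    rcases le_total (B m + q) (B (m + p)) with h | h
    · exact hdis m (B (m + p) - q) (by linarith) (by linarith) (by linarith)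
        (by have := hBT (m + p); linarith)
    · exact hdis m (B m) le_rfl (hBT m) (by linarith) (by linarith)
  rcases hdi 0 with h0 | h0
  · left
    intro m
    induction m with
    | zero => exact h0
    | succ m ih =>
      rcases hdi (m + 1) with h | h
      · exact h
      · exfalso
        have e : m + 1 + p = m + p + 1 := by ring
        rw [e] at h
        have a1 := h2 (m + p)
        have a2 := hBT m
        have a3 := h1 m
        have a4 := hBT (m + 1)
        linarith
  · right
    intro m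
    induction m with
    | zero => exact h0
    | succ m ih =>
      rcases hdi (m + 1) with h | h
      · exfalso
        have e : m + 1 + p = m + p + 1 := by ring
        rw [e] at h
        have a1 := h2 m
        have a2 := hBT (m + p)
        have a3 := h1 (m + p)
        have a4 := hBT (m + p + 1)
        linarith
      · exact h

/-- the slope of a path and the quantitative form of `side` -/
theorem slope (B T : ℕ → ℤ) (hBT : ∀ m, B m ≤ T m) (h1 : ∀ m, T m ≤ B (m + 1)) (δ : ℤ)
    (hδ : δ ≤ 1) (h2 : ∀ m, B (m + 1) ≤ T m + δ) (K : ℤ) (hK : ∀ m, T (m + 1) - T m ≤ K) :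
    ∃ β : ℝ, 0 ≤ β ∧ ∀ (p : ℕ) (q : ℤ), |(q : ℝ) - β * p| < max 1 (β + 1 - δ) →
      ∃ m y, B m ≤ y ∧ y ≤ T m ∧ B (m + p) ≤ y + q ∧ y + q ≤ T (m + p) := by
  have hmono : ∀ m, T m ≤ T (m + 1) := fun m => (h1 m).trans (hBT (m + 1))
  obtain ⟨β, hβ⟩ := rotation (fun n => ((T n - T 0 : ℤ) : ℝ)) K (by
    intro n
    have e : (((T (n + 1) - T 0 : ℤ) : ℝ)) - ((T n - T 0 : ℤ) : ℝ) =
        ((T (n + 1) - T n : ℤ) : ℝ) := by push_cast; ring
    rw [e, abs_of_nonneg (by have := hmono n; exact_mod_cast (by linarith : (0:ℤ) ≤ _))]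
    exact_mod_cast hK n) (by simp)
  have hwin : ∀ t n : ℕ, 0 ≤ T (n + t) - T n ∧ T (n + t) - T n ≤ t * K := by
    intro t n
    induction t with
    | zero => simp
    | succ t ih =>
      have a1 := hmono (n + t)
      have a2 := hK (n + t)
      rw [show n + (t + 1) = n + t + 1 by ring]
      push_cast
      constructor
      · linarith [ih.1]
      · linarith [ih.2]
  have hup : ∀ (t : ℕ) (c : ℤ), (∀ n, T (n + t) - T n ≤ c) → (t : ℝ) * β ≤ c := by
    intro t c hc
    refine (hβ t ((0 : ℤ) : ℝ) c (fun n => ?_) (fun n => ?_)).2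
    · have := (hwin t n).1
      have e : (((T (n + t) - T 0 : ℤ) : ℝ)) - ((T n - T 0 : ℤ) : ℝ) =
        ((T (n + t) - T n : ℤ) : ℝ) := by push_cast; ring
      rw [e]; exact_mod_cast this
    · have := hc n
      have e : (((T (n + t) - T 0 : ℤ) : ℝ)) - ((T n - T 0 : ℤ) : ℝ) =
        ((T (n + t) - T n : ℤ) : ℝ) := by push_cast; ring
      rw [e]; exact_mod_cast this
  have hlow : ∀ (t : ℕ) (c : ℤ), (∀ n, c ≤ T (n + t) - T n) → (c : ℝ) ≤ t * β := by
    intro t c hc
    refine (hβ t c ((t * K : ℤ) : ℝ) (fun n => ?_) (fun n => ?_)).1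
    · have := hc n
      have e : (((T (n + t) - T 0 : ℤ) : ℝ)) - ((T n - T 0 : ℤ) : ℝ) =
        ((T (n + t) - T n : ℤ) : ℝ) := by push_cast; ring
      rw [e]; exact_mod_cast this
    · have := (hwin t n).2
      have e : (((T (n + t) - T 0 : ℤ) : ℝ)) - ((T n - T 0 : ℤ) : ℝ) =
        ((T (n + t) - T n : ℤ) : ℝ) := by push_cast; ring
      rw [e]; exact_mod_cast this
  refine ⟨β, ?_, ?_⟩
  · have := hlow 1 0 (fun n => (hwin 1 n).1)
    simpa using this
  intro p q hpq
  by_contra hcon
  push Not at hcon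
  have hs := side B T hBT h1 (fun m => (h2 m).trans (by linarith)) p q
    (fun m y b1 b2 b3 b4 => absurd b4 (not_le.mpr (hcon m y b1 b2 b3)))
  have hmax : max 1 (β + 1 - δ) ≤ |(q : ℝ) - β * p| := by
    rcases hs with hs | hs
    · have c1 := hup p (q - 1) (fun n => by have := hs n; have := hBT n; linarith)
      have c2 := hup (p + 1) (q - 1 + δ) (fun n => by
        have a1 := hs (n + 1)
        have a2 := h2 n
        rw [show n + 1 + p = n + (p + 1) by ring] at a1
        linarith)
      push_cast at c1 c2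
      refine le_trans (max_le ?_ ?_) (le_abs_self _)
      · linarith
      · linarith
    · have c1 := hlow p (q + 1) (fun n => by have := hs n; have := hBT (n + p); linarith)
      have c2 : (q : ℝ) + 1 - δ ≤ β * p - β := by
        rcases p with _ | p
        · have c3 := hup 1 (δ - q - 1) (fun n => by
            have a1 := hs (n + 1)
            have a2 := h2 n
            rw [add_zero] at a1
            linarith)
          push_cast at c3 ⊢
          linarith
        · have c3 := hlow p (q + 1 - δ) (fun n => by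
            have a1 := hs n
            have a2 := h2 (n + p)
            rw [show n + (p + 1) = n + p + 1 by ring] at a1
            linarith)
          push_cast at c3 ⊢
          linarith
      push_cast at c1
      rw [abs_sub_comm]
      refine le_trans (max_le ?_ ?_) (le_abs_self _)
      · linarith
      · linarith
  exact absurd hpq (not_lt.mpr hmax)

/-- The columns of the lattice path of a sequence with differences `u`, `v`, `u + v`. -/
theorem columns (a : ℕ → ℤ) (u v : ℤ) (δ : ℤ)
    (hδ0 : 0 ≤ δ) (hδ : ∀ i, a (i + 1) ≠ a i + v → a (i + 1) ≠ a i + u → δ = 1)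
    (h : ∀ i, a (i + 1) = a i + u ∨ a (i + 1) = a i + v ∨ a (i + 1) = a i + (u + v))
    (K : ℕ) (hK : ∀ i, ∃ k < K, a (i + k + 1) ≠ a (i + k) + v) :
    ∃ B T : ℕ → ℤ, (∀ m, B m ≤ T m) ∧ (∀ m, T m ≤ B (m + 1)) ∧ (∀ m, B (m + 1) ≤ T m + δ) ∧
      (∀ m, T (m + 1) - T m ≤ K) ∧
      ∀ (m : ℕ) (y : ℤ), B m ≤ y → y ≤ T m → ∃ i, a i = a 0 + u * m + v * y := by
  classical
  set p : ℕ → Prop := fun i => a (i + 1) ≠ a i + v with hp
  set w : ℕ → ℤ := fun i => if a (i + 1) ≠ a i + v ∧ a (i + 1) = a i + u then 0 else 1 with hw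
  set Q : ℕ → ℤ := fun n => ∑ j ∈ range n, w j with hQ
  have hw01 : ∀ i, 0 ≤ w i ∧ w i ≤ 1 := by
    intro i
    simp only [hw]
    split_ifs <;> simp
  have hQs : ∀ n, Q (n + 1) = Q n + w n := by
    intro n
    simp only [hQ, sum_range_succ]
  have hQmono : Monotone Q := by
    apply monotone_nat_of_le_succ
    intro n
    rw [hQs]
    linarith [(hw01 n).1]
  have hQlip : ∀ n k, Q (n + k) ≤ Q n + k := by
    intro n k
    induction k with
    | zero => simp
    | succ k ih =>
      rw [show n + (k + 1) = n + k + 1 by ring, hQs]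
      push_cast
      linarith [(hw01 (n + k)).2]
  have hinf : {i | p i}.Infinite := by
    rw [Set.infinite_iff_exists_gt]
    intro n
    obtain ⟨k, _, hk⟩ := hK (n + 1)
    exact ⟨n + 1 + k, hk, by omega⟩
  have hval : ∀ n, a n = a 0 + u * (Nat.count p n) + v * Q n := by
    intro n
    induction n with
    | zero => simp [hQ]
    | succ n ih =>
      rw [hQs, Nat.count_succ]
      by_cases h1 : a (n + 1) = a n + v
      · have h2 : ¬ p n := by simp only [hp]; push Not; exact h1
        have h3 : w n = 1 := by simp only [hw]; rw [if_neg]; rintro ⟨h4, _⟩; exact h4 h1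
        rw [if_neg h2, h3, h1, ih]
        push_cast; ring
      · have h2 : p n := h1
        by_cases h4 : a (n + 1) = a n + u
        · have h3 : w n = 0 := by simp only [hw]; rw [if_pos ⟨h1, h4⟩]
          rw [if_pos h2, h3, h4, ih]
          push_cast; ring
        · have h3 : w n = 1 := by simp only [hw]; rw [if_neg]; rintro ⟨_, h5⟩; exact h4 h5
          have h5 : a (n + 1) = a n + (u + v) := by
            rcases h n with h6 | h6 | h6
            · exact absurd h6 h4
            · exact absurd h6 h1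
            · exact h6
          rw [if_pos h2, h3, h5, ih]
          push_cast; ring
  have hmem : ∀ m, p (Nat.nth p m) := fun m => Nat.nth_mem_of_infinite hinf m
  have hcnt : ∀ m, Nat.count p (Nat.nth p m) = m := fun m => Nat.count_nth_of_infinite hinf m
  have hcnt1 : ∀ m, Nat.count p (Nat.nth p m + 1) = m + 1 := by
    intro m
    rw [Nat.count_succ, if_pos (hmem m), hcnt]
  have hlt : ∀ m, Nat.nth p m < Nat.nth p (m + 1) := fun m =>
    Nat.nth_strictMono hinf (Nat.lt_succ_self m)
  refine ⟨fun m => match m with | 0 => 0 | m + 1 => Q (Nat.nth p m + 1),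
    fun m => Q (Nat.nth p m), ?_, ?_, ?_, ?_, ?_⟩
  · intro m
    cases m with
    | zero =>
      have : Q 0 ≤ Q (Nat.nth p 0) := hQmono (Nat.zero_le _)
      simpa [hQ] using this
    | succ m => exact hQmono (hlt m)
  · intro m
    exact hQmono (Nat.le_succ _)
  · intro m
    show Q (Nat.nth p m + 1) ≤ Q (Nat.nth p m) + δ
    rw [hQs]
    by_cases h4 : a (Nat.nth p m + 1) = a (Nat.nth p m) + u
    · have h3 : w (Nat.nth p m) = 0 := by simp only [hw]; rw [if_pos ⟨hmem m, h4⟩]
      linarith
    · have := hδ _ (hmem m) h4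
      linarith [(hw01 (Nat.nth p m)).2]
  · intro m
    show Q (Nat.nth p (m + 1)) - Q (Nat.nth p m) ≤ K
    obtain ⟨k, hk, hk2⟩ := hK (Nat.nth p m + 1)
    have h3 : m + 1 < Nat.count p (Nat.nth p m + 1 + k + 1) := by
      have h4 : p (Nat.nth p m + 1 + k) := hk2
      rw [Nat.count_succ, if_pos h4]
      have := Nat.count_monotone p (show Nat.nth p m + 1 ≤ Nat.nth p m + 1 + k by omega)
      rw [hcnt1] at this
      omega
    have h5 := Nat.nth_lt_of_lt_count h3
    have h6 : Q (Nat.nth p (m + 1)) ≤ Q (Nat.nth p m + K) := hQmono (by omega)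
    have h7 := hQlip (Nat.nth p m) K
    linarith
  · intro m y hy1 hy2
    -- first index of the column
    obtain ⟨s, hs1, hs2, hs3⟩ : ∃ s, s ≤ Nat.nth p m ∧ Nat.count p s = m ∧ Q s ≤ y := by
      cases m with
      | zero => exact ⟨0, Nat.zero_le _, by simp, by simpa [hQ] using hy1⟩
      | succ m => exact ⟨Nat.nth p m + 1, hlt m, hcnt1 m, hy1⟩
    have hcount : ∀ i, s ≤ i → i ≤ Nat.nth p m → Nat.count p i = m := by
      intro i hi1 hi2
      have a1 := Nat.count_monotone p hi1
      have a2 := Nat.count_monotone p hi2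
      rw [hs2] at a1
      rw [hcnt] at a2
      omega
    obtain ⟨k, hk⟩ := discrete_ivt (fun k => Q (min (s + k) (Nat.nth p m))) (by
      intro k
      rcases le_total (s + k + 1) (Nat.nth p m) with h1 | h1
      · rw [show s + (k + 1) = s + k + 1 by ring, min_eq_left h1, min_eq_left (by omega), hQs,
          abs_le]
        constructor
        · linarith [(hw01 (s + k)).1]
        · linarith [(hw01 (s + k)).2]
      · rw [show s + (k + 1) = s + k + 1 by ring, min_eq_right h1]
        rcases Nat.eq_or_lt_of_le h1 with h2 | h2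
        · rw [min_eq_left (by omega), h2, hQs, abs_le]
          constructor
          · linarith [(hw01 (s + k)).1]
          · linarith [(hw01 (s + k)).2]
        · rw [min_eq_right (by omega)]
          simp) y 0 (Nat.nth p m) (by simpa [min_eq_left hs1] using hs3)
      (by
        have : min (s + Nat.nth p m) (Nat.nth p m) = Nat.nth p m := min_eq_right (by omega)
        simpa [this] using hy2)
    refine ⟨min (s + k) (Nat.nth p m), ?_⟩
    rw [hval, hk, hcount _ (le_min (by omega) hs1) (min_le_right _ _)]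

/-- Sequences with differences `u`, `v`, `u + v`, all at most `R`. -/
theorem three_gaps (a : ℕ → ℤ) (u v R : ℤ) (hu : 0 < u) (hv : 0 < v) (huR : u ≤ R) (hvR : v ≤ R)
    (h : ∀ i, a (i + 1) = a i + u ∨ a (i + 1) = a i + v ∨ a (i + 1) = a i + (u + v))
    (hR : ∀ i, a (i + 1) - a i ≤ R) :
    ∃ θ : ℝ, ∀ n : ℤ, (Int.gcd u v : ℤ) ∣ n →
      |θ * n - round (θ * n)| < (Int.gcd u v : ℝ) / (R : ℝ) → ∃ i j, n = a i - a j := by
  classical
  set d : ℤ := (Int.gcd u v : ℤ) with hd
  have hdpos : 0 < d := by
    rw [hd]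
    exact_mod_cast Int.gcd_pos_of_ne_zero_left v hu.ne'
  have hdr : (0 : ℝ) < (d : ℝ) := by exact_mod_cast hdpos
  have hdc : (Int.gcd u v : ℝ) = (d : ℝ) := by rw [hd]; push_cast; rfl
  obtain ⟨u', hu'⟩ : d ∣ u := Int.gcd_dvd_left u v
  obtain ⟨v', hv'⟩ : d ∣ v := Int.gcd_dvd_right u v
  have hRpos : 0 < R := lt_of_lt_of_le hu huR
  have hRr : (0 : ℝ) < (R : ℝ) := by exact_mod_cast hRpos
  have hu'pos : 0 < u' := by
    by_contra hcon
    push Not at hcon
    have : u ≤ 0 := by rw [hu']; exact mul_nonpos_of_nonneg_of_nonpos hdpos.le hcon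
    linarith
  have hv'pos : 0 < v' := by
    by_contra hcon
    push Not at hcon
    have : v ≤ 0 := by rw [hv']; exact mul_nonpos_of_nonneg_of_nonpos hdpos.le hcon
    linarith
  rw [hdc]
  by_cases hrun : ∃ K : ℕ, ∀ i, ∃ k < K, a (i + k + 1) ≠ a (i + k) + v
  · obtain ⟨K, hK⟩ := hrun
    set δ : ℤ := if u + v ≤ R then 1 else 0 with hδd
    have hδ1 : δ ≤ 1 := by rw [hδd]; split_ifs <;> norm_num
    have hδ0 : 0 ≤ δ := by rw [hδd]; split_ifs <;> norm_num
    have hδ : ∀ i, a (i + 1) ≠ a i + v → a (i + 1) ≠ a i + u → δ = 1 := by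
      intro i h1 h2
      rcases h i with h3 | h3 | h3
      · exact absurd h3 h2
      · exact absurd h3 h1
      · have := hR i
        rw [hδd, if_pos (by linarith)]
    obtain ⟨B, T, b1, b2, b3, b4, b5⟩ := columns a u v δ hδ0 hδ h K hK
    obtain ⟨β, hβ0, hβ⟩ := slope B T b1 b2 δ hδ1 b3 K b4
    set p₀ : ℤ := Int.gcdA u v with hp₀
    set q₀ : ℤ := Int.gcdB u v with hq₀
    have hbez : d = u * p₀ + v * q₀ := Int.gcd_eq_gcd_ab u v
    have hur : (0 : ℝ) < (u : ℝ) := by exact_mod_cast hu
    have hvr : (0 : ℝ) < (v : ℝ) := by exact_mod_cast hv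
    have hDpos : (0 : ℝ) < (u : ℝ) + β * v := by positivity
    have hmax : (u : ℝ) + β * v ≤ max 1 (β + 1 - δ) * R := by
      have huRr : (u : ℝ) ≤ R := by exact_mod_cast huR
      have hvRr : (v : ℝ) ≤ R := by exact_mod_cast hvR
      by_cases hsum : u + v ≤ R
      · have hsr : (u : ℝ) + v ≤ R := by exact_mod_cast hsum
        have e : δ = 1 := by rw [hδd, if_pos hsum]
        rw [e]
        have m1 : (1 : ℝ) ≤ max 1 (β + 1 - ((1 : ℤ) : ℝ)) := le_max_left _ _
        have m2 : β ≤ max 1 (β + 1 - ((1 : ℤ) : ℝ)) := by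
          refine le_trans ?_ (le_max_right _ _); push_cast; linarith
        set M := max 1 (β + 1 - ((1 : ℤ) : ℝ)) with hM
        calc (u : ℝ) + β * v ≤ M * u + M * v := by nlinarith
          _ = M * (u + v) := by ring
          _ ≤ M * R := by nlinarith
      · have e : δ = 0 := by rw [hδd, if_neg hsum]
        rw [e]
        have m2 : β + 1 ≤ max 1 (β + 1 - ((0 : ℤ) : ℝ)) := by
          refine le_trans ?_ (le_max_right _ _); push_cast; linarith
        set M := max 1 (β + 1 - ((0 : ℤ) : ℝ)) with hM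
        calc (u : ℝ) + β * v ≤ (β + 1) * R := by nlinarith
          _ ≤ M * R := by nlinarith
    refine ⟨((q₀ : ℝ) - β * p₀) / (u + β * v), ?_⟩
    rintro n ⟨n', hn'⟩ hn
    set θ : ℝ := ((q₀ : ℝ) - β * p₀) / (u + β * v) with hθ
    set t : ℤ := round (θ * n) with ht
    set P : ℤ := n' * p₀ + t * v' with hP
    set q : ℤ := n' * q₀ - t * u' with hq
    have hn2 : u * P + v * q = n := by
      rw [hn', hP, hq]
      have e1 : u * v' = v * u' := by rw [hu', hv']; ring
      calc u * (n' * p₀ + t * v') + v * (n' * q₀ - t * u')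
          = n' * (u * p₀ + v * q₀) + t * (u * v' - v * u') := by ring
        _ = d * n' := by rw [← hbez, e1]; ring
    have hur' : (u : ℝ) = d * u' := by exact_mod_cast hu'
    have hvr' : (v : ℝ) = d * v' := by exact_mod_cast hv'
    have hnr : (n : ℝ) = d * n' := by exact_mod_cast hn'
    have hqP : (q : ℝ) - β * P = (u + β * v) / d * (θ * n - t) := by
      have e1 : θ * (u + β * v) = (q₀ : ℝ) - β * p₀ := by
        rw [hθ]; field_simp
      have e2 : (u + β * v) / d = u' + β * v' := by
        rw [hur', hvr']; field_simp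
      have e3 : (u + β * v) / d * (θ * n - t) =
          (θ * (u + β * v)) * (n / d) - t * ((u + β * v) / d) := by field_simp
      rw [e3, e1, e2, hnr, hP, hq]
      push_cast
      field_simp
      ring
    have habs : |(q : ℝ) - β * P| < max 1 (β + 1 - δ) := by
      rw [hqP, abs_mul, abs_of_pos (by positivity)]
      calc (u + β * v) / d * |θ * n - t| < (u + β * v) / d * (d / R) :=
            mul_lt_mul_of_pos_left hn (by positivity)
        _ = (u + β * v) / R := by field_simp
        _ ≤ max 1 (β + 1 - δ) := by rw [div_le_iff₀ hRr]; exact hmax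
    rcases le_total 0 P with hPs | hPs
    · obtain ⟨k, hk⟩ := Int.eq_ofNat_of_zero_le hPs
      obtain ⟨m, y, c1, c2, c3, c4⟩ := hβ k q (by
        have : ((P : ℤ) : ℝ) = (k : ℝ) := by rw [hk]; simp
        rw [this] at habs; exact habs)
      obtain ⟨i, hi⟩ := b5 m y c1 c2
      obtain ⟨j, hj⟩ := b5 (m + k) (y + q) c3 c4
      refine ⟨j, i, ?_⟩
      rw [← hn2, hi, hj, hk]
      push_cast; ring
    · obtain ⟨k, hk⟩ := Int.eq_ofNat_of_zero_le (neg_nonneg.mpr hPs)
      obtain ⟨m, y, c1, c2, c3, c4⟩ := hβ k (-q) (by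
        have : (k : ℝ) = -(P : ℝ) := by
          have : ((-P : ℤ) : ℝ) = (k : ℝ) := by rw [hk]; simp
          rw [← this]; push_cast; ring
        rw [this]
        have e : ((-q : ℤ) : ℝ) - β * -(P : ℝ) = -((q : ℝ) - β * P) := by push_cast; ring
        rw [e, abs_neg]; exact habs)
      obtain ⟨i, hi⟩ := b5 m y c1 c2
      obtain ⟨j, hj⟩ := b5 (m + k) (y + -q) c3 c4
      refine ⟨i, j, ?_⟩
      have hk' : P = -(k : ℤ) := by
        have : -P = (k : ℤ) := hk
        linarith
      rw [← hn2, hi, hj, hk']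
      push_cast; ring
  · push Not at hrun
    -- arbitrarily long runs of `v`
    refine ⟨1 / (v : ℝ), ?_⟩
    rintro n ⟨n', hn'⟩ hn
    have hvr : (0 : ℝ) < (v : ℝ) := by exact_mod_cast hv
    set t : ℤ := round (1 / (v : ℝ) * n) with ht
    have hvr' : (v : ℝ) = d * v' := by exact_mod_cast hv'
    have hnr : (n : ℝ) = d * n' := by exact_mod_cast hn'
    have h1 : |((n' - v' * t : ℤ) : ℝ)| < 1 := by
      have e : ((n' - v' * t : ℤ) : ℝ) = (v : ℝ) / d * (1 / (v : ℝ) * n - t) := by
        have hv'r : (0 : ℝ) < (v' : ℝ) := by exact_mod_cast hv'pos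
        rw [hnr, hvr']
        push_cast
        field_simp
      rw [e, abs_mul, abs_of_pos (by positivity)]
      calc (v : ℝ) / d * |1 / (v : ℝ) * n - t| < (v : ℝ) / d * (d / R) :=
            mul_lt_mul_of_pos_left hn (by positivity)
        _ = (v : ℝ) / R := by field_simp
        _ ≤ 1 := by rw [div_le_one hRr]; exact_mod_cast hvR
    have h2 : |n' - v' * t| < 1 := by exact_mod_cast h1
    have h3 : n' - v' * t = 0 := Int.abs_lt_one_iff.mp h2
    have h4 : n = v * t := by
      rw [hn', hv']
      have : n' = v' * t := by linarith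
      rw [this]; ring
    obtain ⟨i, hi⟩ := hrun t.natAbs
    have hrunval : ∀ k ≤ t.natAbs, a (i + k) = a i + v * k := by
      intro k
      induction k with
      | zero => intro _; simp
      | succ k ih =>
        intro hk
        have := hi k (by omega)
        rw [show i + (k + 1) = i + k + 1 by ring, this, ih (by omega)]
        push_cast; ring
    have hval := hrunval t.natAbs le_rfl
    rcases le_total 0 t with hts | hts
    · refine ⟨i + t.natAbs, i, ?_⟩
      rw [hval, h4]
      have : ((t.natAbs : ℕ) : ℤ) = t := Int.natAbs_of_nonneg hts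
      rw [this]; ring
    · refine ⟨i, i + t.natAbs, ?_⟩
      rw [hval, h4]
      have : ((t.natAbs : ℕ) : ℤ) = -t := Int.ofNat_natAbs_of_nonpos hts
      rw [this]; ring

end Pool.Agent.H20.KQ3
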