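import Mathlib
import Pool.Agent.H61.KZ.Main

/-!
# Circle-valued functions with few winding squares

The argument of `H61KZ.main`, with the hypothesis `1 / 4 < δ` replaced by what it is used for: no
square `x, x + s, x + s + t, x + t` winds around the circle.  By compactness it is enough that this
holds on arbitrarily long intervals.
-/

set_option autoImplicit false

namespace Pool.Agent.H20.KQW

open H61KZ Filter Topology

/-- no square with both sides in `S` winds around the circle -/
def Comm (f : ℤ → ℝ) (S : Set ℤ) : Prop :=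
  ∀ s t : ℤ, s ∈ S → t ∈ S → ∀ x : ℤ,
    g f s x + g f t (x + s) = g f t x + g f s (x + t)

theorem fract_eq {y δ : ℝ} (hδ : 0 < δ) (h : δ ≤ nn y) : Int.fract y = 1 / 2 + dev y := by
  have h0 : (0 : ℝ) < Int.fract y := by
    rcases (Int.fract_nonneg y).eq_or_lt with h1 | h1
    · exfalso
      have h2 : y = (⌊y⌋ : ℝ) := by
        have := Int.self_sub_floor y
        linarith
      have h3 := nn_le y ⌊y⌋
      have h4 : |y - (⌊y⌋ : ℝ)| = 0 := by rw [abs_eq_zero]; linarith
      linarith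
    · exact h1
  have h1 := Int.fract_lt_one y
  have h2 : round (y - 1 / 2) = ⌊y⌋ := by
    rw [round_eq, Int.floor_eq_iff]
    have := Int.floor_le y
    have := Int.lt_floor_add_one y
    constructor <;> linarith
  unfold dev
  rw [h2]
  have := Int.self_sub_floor y
  linarith

/-- increments lifted along `h`, relative to `S` -/
def LiftOn (f : ℤ → ℝ) (S : Set ℤ) (h : ℤ) : Prop :=
  ∃ L : ℤ → ℝ, (∃ B : ℝ, ∀ x, |L x| ≤ B) ∧ (∀ x, ∃ m : ℤ, L x = f (x + h) - f x + m) ∧
    ∀ t ∈ S, ∀ x, L (x + t) - L x = g f t (x + h) - g f t x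

theorem lift_closure' {f : ℤ → ℝ} {δ : ℝ} {S : Set ℤ} (hδ : 0 < δ) (hS : S ⊆ Far f δ)
    (hcomm : Comm f S) {h : ℤ} (hh : h ∈ AddSubgroup.closure S) : LiftOn f S h := by
  induction hh using AddSubgroup.closure_induction with
  | mem s hs =>
    refine ⟨fun x => 1 / 2 + g f s x, ⟨1, fun x => ?_⟩, fun x => ?_, fun t ht x => ?_⟩
    · have b1 := abs_le.1 (g_bound (hS hs) x)
      rw [abs_le]
      constructor <;> linarith
    · obtain ⟨m, hm⟩ := g_spec f s x
      refine ⟨-m, ?_⟩
      push_cast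
      linarith
    · have := hcomm s t hs ht x
      linarith
  | zero =>
    refine ⟨fun _ => 0, ⟨0, by simp⟩, fun x => ⟨0, by simp⟩, fun t ht x => by simp⟩
  | add h k _ _ ih1 ih2 =>
    obtain ⟨L, ⟨B, hB⟩, hL, hL'⟩ := ih1
    obtain ⟨M, ⟨C, hC⟩, hM, hM'⟩ := ih2
    refine ⟨fun x => L x + M (x + h), ⟨B + C, fun x => ?_⟩, fun x => ?_, fun t ht x => ?_⟩
    · exact (abs_add_le _ _).trans (add_le_add (hB x) (hC _))
    · obtain ⟨a, ha⟩ := hL x
      obtain ⟨b, hb⟩ := hM (x + h)
      refine ⟨a + b, ?_⟩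
      have e : x + (h + k) = x + h + k := by ring
      rw [e]
      push_cast
      linarith
    · have h1 := hL' t ht x
      have h2 := hM' t ht (x + h)
      have e1 : x + t + h = x + h + t := by ring
      have e2 : x + (h + k) = x + h + k := by ring
      simp only
      rw [e1, e2]
      linarith
  | neg h _ ih =>
    obtain ⟨L, ⟨B, hB⟩, hL, hL'⟩ := ih
    refine ⟨fun x => -L (x - h), ⟨B, fun x => ?_⟩, fun x => ?_, fun t ht x => ?_⟩
    · rw [abs_neg]
      exact hB _
    · obtain ⟨a, ha⟩ := hL (x - h)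
      refine ⟨-a, ?_⟩
      have e : x - h + h = x := by ring
      rw [e] at ha
      have e2 : x + -h = x - h := by ring
      rw [e2]
      push_cast
      linarith
    · have h1 := hL' t ht (x - h)
      have e1 : x - h + t = x + t - h := by ring
      have e2 : x - h + h = x := by ring
      have e3 : x + -h = x - h := by ring
      simp only
      rw [e1, e2] at h1
      rw [e3]
      linarith

/-- A circle-valued function without winding squares with sides in `S` is at least as recurrent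
along `S` as a character. -/
theorem main' (f : ℤ → ℝ) (δ : ℝ) (S : Set ℤ) (hδ : 0 < δ) (hS : S ⊆ Far f δ)
    (hneg : ∀ s ∈ S, -s ∈ S) (hcomm : Comm f S) :
    ∃ θ : ℝ, ∀ n ∈ S, δ ≤ nn (θ * n) := by
  obtain ⟨d, hd⟩ := Int.subgroup_cyclic (AddSubgroup.closure S)
  have hdm : d ∈ AddSubgroup.closure S := by
    rw [hd]
    exact AddSubgroup.subset_closure rfl
  have hmem : ∀ n ∈ S, ∃ k : ℤ, n = k * d := by
    intro n hn
    have h1 : n ∈ AddSubgroup.closure S := AddSubgroup.subset_closure hn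
    rw [hd, AddSubgroup.mem_closure_singleton] at h1
    obtain ⟨k, hk⟩ := h1
    exact ⟨k, by rw [← hk]; simp⟩
  obtain ⟨L, ⟨B, hB⟩, hL, hL'⟩ := lift_closure' hδ hS hcomm hdm
  set F : ℕ → ℝ := fun k => ∑ j ∈ Finset.range k, L ((j : ℤ) * d) with hF
  have hF0 : F 0 = 0 := by simp [hF]
  have hFs : ∀ k, F (k + 1) - F k = L ((k : ℤ) * d) := by
    intro k
    simp only [hF, Finset.sum_range_succ]
    ring
  obtain ⟨ρ, hρ⟩ := exists_rho (F := F) (B := B) (η := 1 / 2 - δ) hF0
    (fun k => by rw [hFs]; exact hB _)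
  -- positive multiples
  have hpos : ∀ m : ℕ, ((m : ℤ) * d) ∈ S → δ ≤ nn (ρ * m) := by
    intro m hm
    set s : ℤ := (m : ℤ) * d with hs
    have hconst : ∀ k : ℕ, F (k + m) - F k - g f s ((k : ℤ) * d) = F m - g f s 0 := by
      intro k
      induction k with
      | zero => simp [hF0]
      | succ k ih =>
        rw [← ih]
        have h1 := hFs (k + m)
        have h2 := hFs k
        have h3 := hL' s hm ((k : ℤ) * d)
        have e1 : ((k + m : ℕ) : ℤ) * d = (k : ℤ) * d + s := by
          rw [hs]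
          push_cast
          ring
        have e2 : ((k + 1 : ℕ) : ℤ) * d = (k : ℤ) * d + d := by
          push_cast
          ring
        have e3 : k + 1 + m = k + m + 1 := by ring
        rw [e1] at h1
        rw [e2, e3]
        linarith
    have hint : ∀ k : ℕ, ∃ z : ℤ, F k = f ((k : ℤ) * d) - f 0 + z := by
      intro k
      induction k with
      | zero => exact ⟨0, by simp [hF0]⟩
      | succ k ih =>
        obtain ⟨z, hz⟩ := ih
        obtain ⟨w, hw⟩ := hL ((k : ℤ) * d)
        refine ⟨z + w, ?_⟩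
        have h2 := hFs k
        have e2 : ((k + 1 : ℕ) : ℤ) * d = (k : ℤ) * d + d := by
          push_cast
          ring
        rw [e2]
        push_cast
        linarith
    obtain ⟨z, hz⟩ := hint m
    obtain ⟨w, hw⟩ := g_spec f s 0
    rw [zero_add] at hw
    have hc : F m - g f s 0 = 1 / 2 + ((z + w : ℤ) : ℝ) := by
      rw [hz]
      push_cast
      linarith
    have h1 : |(m : ℝ) * ρ - (F m - g f s 0)| ≤ 1 / 2 - δ := by
      apply hρ
      intro k
      have h2 := hconst k
      have h3 := g_bound (hS hm) ((k : ℤ) * d)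
      have e : F (k + m) - F k - (F m - g f s 0) = g f s ((k : ℤ) * d) := by linarith
      rw [e]
      exact h3
    rw [hc] at h1
    have h2 := half_int (z + w) (round (ρ * m))
    unfold nn
    have h3 : |1 / 2 + ((z + w : ℤ) : ℝ) - (round (ρ * m) : ℝ)| ≤
        |ρ * m - (round (ρ * m) : ℝ)| + |(m : ℝ) * ρ - (1 / 2 + ((z + w : ℤ) : ℝ))| := by
      have e : 1 / 2 + ((z + w : ℤ) : ℝ) - (round (ρ * m) : ℝ) =
          (ρ * m - (round (ρ * m) : ℝ)) - ((m : ℝ) * ρ - (1 / 2 + ((z + w : ℤ) : ℝ))) := by ring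
      rw [e]
      exact abs_sub _ _
    linarith
  by_cases hd0 : d = 0
  · refine ⟨0, fun n hn => ?_⟩
    obtain ⟨k, hk⟩ := hmem n hn
    rw [hd0, mul_zero] at hk
    have := hS hn 0
    rw [hk] at this
    simp [nn] at this
    linarith
  · refine ⟨ρ / d, fun n hn => ?_⟩
    obtain ⟨k, hk⟩ := hmem n hn
    have hdr : (d : ℝ) ≠ 0 := by exact_mod_cast hd0
    have e : ρ / d * (n : ℝ) = ρ * k := by
      rw [hk]
      push_cast
      field_simp
    rw [e]
    obtain ⟨m, hm | hm⟩ := Int.eq_nat_or_neg k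
    · rw [hm]
      push_cast
      apply hpos
      rw [← hm, ← hk]
      exact hn
    · have e2 : ρ * (k : ℝ) = -(ρ * m) := by
        rw [hm]
        push_cast
        ring
      rw [e2, nn_neg]
      apply hpos
      have e3 : (m : ℤ) * d = -n := by
        rw [hk, hm]
        ring
      rw [e3]
      exact hneg n hn

/-! ### Compactness -/

theorem nn_eq_norm (y : ℝ) : nn y = ‖(y : UnitAddCircle)‖ := by
  rw [UnitAddCircle.norm_eq]
  rfl

theorem continuous_nn : Continuous nn := by
  have h : nn = fun y : ℝ => ‖(y : UnitAddCircle)‖ := funext nn_eq_norm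
  rw [h]
  exact continuous_norm.comp (AddCircle.continuous_mk' 1)

/-- the difference of the lengths of the two routes round a square -/
noncomputable def W (f : ℤ → ℝ) (s t x : ℤ) : ℝ :=
  Int.fract (f (x + s) - f x) + Int.fract (f (x + s + t) - f (x + s)) -
    (Int.fract (f (x + t) - f x) + Int.fract (f (x + t + s) - f (x + t)))

theorem fract_cont {y δ : ℝ} (hδ : 0 < δ) (h : δ ≤ nn y) : ContinuousAt Int.fract y := by
  apply continuousAt_fract
  intro h0
  have : nn y = 0 := by
    unfold nn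
    rw [h0]
    simp
  linarith

/-- Compactness: from functions that separate `S` without winding squares on long intervals to one
such function on the integers. -/
theorem exists_limit (S : Set ℤ) (δ : ℝ) (hδ : 0 < δ)
    (h : ∀ N : ℕ, ∃ f : ℤ → ℝ, ∀ s ∈ S, ∀ t ∈ S, |s| ≤ N → |t| ≤ N → ∀ x : ℤ, 0 ≤ x → x ≤ N →
      δ ≤ nn (f (x + s) - f x) ∧ W f s t x = 0) :
    ∃ F : ℤ → ℝ, S ⊆ Far F δ ∧ ∀ s ∈ S, ∀ t ∈ S, ∀ x, W F s t x = 0 := by
  choose f hf using h
  -- translates, reduced modulo one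
  let u : ℕ → ℤ → ℝ := fun M x => Int.fract (f (2 * M) (x + M))
  let U : Ultrafilter ℕ := Filter.hyperfilter ℕ
  have hlim : ∀ x : ℤ, ∃ L : ℝ, Tendsto (fun M => u M x) U (𝓝 L) := by
    intro x
    have hc : IsCompact (Set.Icc (0 : ℝ) 1) := isCompact_Icc
    have hmem : ∀ᶠ M in (U : Filter ℕ), u M x ∈ Set.Icc (0 : ℝ) 1 :=
      Eventually.of_forall fun M => ⟨Int.fract_nonneg _, (Int.fract_lt_one _).le⟩
    obtain ⟨L, -, hL⟩ := hc.ultrafilter_le_nhds (U.map fun M => u M x) (by
      rw [le_principal_iff]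
      exact hmem)
    exact ⟨L, hL⟩
  choose F hF using hlim
  have hdiff : ∀ x y : ℤ, Tendsto (fun M => u M y - u M x) U (𝓝 (F y - F x)) := fun x y =>
    (hF y).sub (hF x)
  have hu : ∀ (M : ℕ) (x y : ℤ), ∃ z : ℤ, u M y - u M x =
      f (2 * M) (y + M) - f (2 * M) (x + M) + z := by
    intro M x y
    refine ⟨⌊f (2 * M) (x + M)⌋ - ⌊f (2 * M) (y + M)⌋, ?_⟩
    have h1 := Int.self_sub_floor (f (2 * M) (x + M))
    have h2 := Int.self_sub_floor (f (2 * M) (y + M))
    simp only [u]
    push_cast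
    linarith
  have hle : (U : Filter ℕ) ≤ atTop := Nat.hyperfilter_le_atTop
  -- the hypothesis at a given place holds eventually
  have hev : ∀ s ∈ S, ∀ t ∈ S, ∀ x : ℤ, ∀ᶠ M : ℕ in (U : Filter ℕ),
      δ ≤ nn (f (2 * M) (x + M + s) - f (2 * M) (x + M)) ∧ W (f (2 * M)) s t (x + M) = 0 := by
    intro s hs t ht x
    refine hle ?_
    filter_upwards [eventually_ge_atTop (s.natAbs + t.natAbs + x.natAbs)] with M hM
    refine hf (2 * M) s hs t ht ?_ ?_ (x + M) ?_ ?_
    · rw [Int.abs_eq_natAbs]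
      omega
    · rw [Int.abs_eq_natAbs]
      omega
    · omega
    · omega
  have hfar : ∀ s ∈ S, ∀ x : ℤ, δ ≤ nn (F (x + s) - F x) := by
    intro s hs x
    have h1 : Tendsto (fun M => nn (u M (x + s) - u M x)) U (𝓝 (nn (F (x + s) - F x))) :=
      (continuous_nn.tendsto _).comp (hdiff x (x + s))
    refine ge_of_tendsto h1 ?_
    filter_upwards [hev s hs s hs x] with M hM
    obtain ⟨z, hz⟩ := hu M x (x + s)
    rw [hz, nn_add_int]
    have e : x + s + (M : ℤ) = x + M + s := by ring
    rw [e]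
    exact hM.1
  refine ⟨F, fun s hs x => hfar s hs x, fun s hs t ht x => ?_⟩
  have hfr : ∀ x y : ℤ, δ ≤ nn (F y - F x) →
      Tendsto (fun M => Int.fract (u M y - u M x)) U (𝓝 (Int.fract (F y - F x))) := by
    intro x y hxy
    exact (fract_cont hδ hxy).tendsto.comp (hdiff x y)
  have h1 := hfr x (x + s) (hfar s hs x)
  have h2 := hfr (x + s) (x + s + t) (hfar t ht (x + s))
  have h3 := hfr x (x + t) (hfar t ht x)
  have h4 := hfr (x + t) (x + t + s) (hfar s hs (x + t))
  have h5 := (h1.add h2).sub (h3.add h4)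
  have h6 : Tendsto (fun M => Int.fract (u M (x + s) - u M x) +
      Int.fract (u M (x + s + t) - u M (x + s)) - (Int.fract (u M (x + t) - u M x) +
      Int.fract (u M (x + t + s) - u M (x + t)))) U (𝓝 0) := by
    apply tendsto_const_nhds.congr'
    filter_upwards [hev s hs t ht x] with M hM
    have h7 := hM.2
    have key : ∀ y z : ℤ, Int.fract (u M z - u M y) =
        Int.fract (f (2 * M) (z + M) - f (2 * M) (y + M)) := by
      intro y z
      obtain ⟨w, hw⟩ := hu M y z
      rw [hw, Int.fract_add_intCast]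
    rw [key, key, key, key]
    unfold W at h7
    have e1 : x + (M : ℤ) + s = x + s + M := by ring
    have e2 : x + (M : ℤ) + t = x + t + M := by ring
    rw [e1, e2] at h7
    have e3 : x + s + (M : ℤ) + t = x + s + t + M := by ring
    have e4 : x + t + (M : ℤ) + s = x + t + s + M := by ring
    rw [e3, e4] at h7
    exact h7.symm
  exact tendsto_nhds_unique h5 h6

/-- **Main theorem.** -/
theorem mainLocal (S : Set ℤ) (hS : ∀ s ∈ S, -s ∈ S) (δ : ℝ) (hδ : 0 < δ)
    (h : ∀ N : ℕ, ∃ f : ℤ → ℝ, ∀ s ∈ S, ∀ t ∈ S, |s| ≤ N → |t| ≤ N → ∀ x : ℤ, 0 ≤ x → x ≤ N →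
      δ ≤ nn (f (x + s) - f x) ∧ W f s t x = 0) :
    ∃ θ : ℝ, ∀ n ∈ S, δ ≤ nn (θ * n) := by
  obtain ⟨F, hF1, hF2⟩ := exists_limit S δ hδ h
  refine main' F δ S hδ hF1 hS fun s t hs ht x => ?_
  have h1 := hF2 s hs t ht x
  unfold W at h1
  rw [fract_eq hδ (hF1 hs x), fract_eq hδ (hF1 ht (x + s)), fract_eq hδ (hF1 ht x),
    fract_eq hδ (hF1 hs (x + t))] at h1
  unfold g
  linarith

end Pool.Agent.H20.KQW
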